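import Mathlib
import Pool.Agent.W_h79_1ab439.Spectral

set_option autoImplicit false

namespace Pool.Agent.Results.MP_1ab439_an.SpectralSets

open MeasureTheory

/-- The exponential `x ↦ exp(2 π i ⟨ξ, x⟩)`. -/
noncomputable def e {n : ℕ} (ξ x : EuclideanSpace ℝ (Fin n)) : ℂ :=
  Complex.exp (2 * Real.pi * Complex.I * (inner ℝ ξ x : ℝ))

/-- `Λ` is a spectrum of `Ω` (in the sense of Fuglede): the exponentials with frequencies in `Λ`
are pairwise orthogonal in `L²(Ω)`, and every `f` in `L²(Ω)` orthogonal to all of them vanishes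
almost everywhere on `Ω`. -/
def IsSpectrum {n : ℕ} (Ω Λ : Set (EuclideanSpace ℝ (Fin n))) : Prop :=
  (∀ ξ ∈ Λ, ∀ η ∈ Λ, ξ ≠ η → ∫ x in Ω, e ξ x * (starRingEnd ℂ) (e η x) = 0) ∧
  ∀ f : EuclideanSpace ℝ (Fin n) → ℂ, MemLp f 2 (volume.restrict Ω) →
    (∀ ξ ∈ Λ, ∫ x in Ω, f x * (starRingEnd ℂ) (e ξ x) = 0) → f =ᵐ[volume.restrict Ω] 0

/-- Polya's inequality holds, for all `lam`, for every bounded open set which has a spectrum in the
sense of Fuglede, that is, whose `L²` space has an orthogonal basis of exponentials. -/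
theorem result :
    ∀ n : ℕ, 1 ≤ n →
    ∀ Ω : Set (EuclideanSpace ℝ (Fin n)), IsOpen Ω → Bornology.IsBounded Ω →
    ∀ Λ : Set (EuclideanSpace ℝ (Fin n)), IsSpectrum Ω Λ →
    ∀ lam : ℝ, 0 < lam →
    ∀ V : Submodule ℝ (EuclideanSpace ℝ (Fin n) → ℝ),
      (∀ u ∈ V, ContDiff ℝ (⊤ : ℕ∞) u ∧ HasCompactSupport u ∧ tsupport u ⊆ Ω) →
      (∀ u ∈ V, u ≠ 0 →
        ∫ x, ‖fderiv ℝ u x‖ ^ 2 < lam * ∫ x, (u x) ^ 2) →
      (Module.finrank ℝ V : ℝ) ≤
        (4 * Real.pi) ^ (-(n : ℝ) / 2) / Real.Gamma (1 + (n : ℝ) / 2)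
          * lam ^ ((n : ℝ) / 2) * (MeasureTheory.volume Ω).toReal := by
  intro n hn Ω ho hb Λ hΛ lam hl V hV hE
  rcases eq_or_lt_of_le (ENNReal.toReal_nonneg (a := volume Ω)) with h0 | hpos
  · have h1 : volume Ω = 0 := by
      rcases (ENNReal.toReal_eq_zero_iff _).1 h0.symm with h | h
      · exact h
      · exact absurd h hb.measure_lt_top.ne
    have h2 : Ω = ∅ := by
      by_contra hne
      exact (ho.measure_pos volume (Set.nonempty_iff_ne_empty.2 hne)).ne' h1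
    have h3 : V = ⊥ := by
      rw [Submodule.eq_bot_iff]
      intro u hu
      have h4 := (hV u hu).2.2
      rw [h2, Set.subset_empty_iff, tsupport_eq_empty_iff] at h4
      exact h4
    have h5 : Module.finrank ℝ V = 0 := by
      rw [h3]
      exact finrank_bot ℝ _
    rw [h5, ← h0]
    simp
  · have hpos' : 0 < volume.real Ω := hpos
    have hF : Pool.Agent.W_h79_1ab439.IsSpectrum Ω Λ := hΛ
    have h := Pool.Agent.W_h79_1ab439.frame_count hn hpos' le_rfl
      (hF.expFrame hb hpos') hl V hV hE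
    rw [div_self (ne_of_gt hpos'), Real.one_rpow, one_mul] at h
    exact h

end Pool.Agent.Results.MP_1ab439_an.SpectralSets
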